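import Mathlib

/-!
# Edge-magic total labelings of two disjoint cycles of the same length `n ≡ 0 (mod 4)`

For `n = 4 h` label the vertices of the first cycle, in cyclic order, alternately by
`1, ..., h, 3 h, h + 1, ..., 2 h - 1` and by `4 h + 1, ..., 6 h`; the vertices of the second one
alternately by `2 h, ..., 3 h - 1, 3 h + 1, ..., 4 h` and by `6 h + 2, ..., 8 h, 10 h + 1`.
The magic constant is `20 h + 2`.
-/

namespace Pool.Agent.Results.MP_87e2cd_co.TwoEqualCycles

open SimpleGraph

/-- `G` is edge-magic total: there is a bijection `lam` from the vertices and edges of `G` onto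
`{1, ..., v + e}` and a constant `k` such that `lam x + lam xy + lam y = k` for every edge `xy`. -/
def EdgeMagicTotal {V : Type*} (G : SimpleGraph V) : Prop :=
  ∃ lam : V ⊕ G.edgeSet → ℕ, Function.Injective lam ∧
    Set.range lam = Set.Icc 1 (Nat.card V + Nat.card G.edgeSet) ∧
    ∃ k, ∀ (x y : V) (hxy : G.Adj x y),
      lam (Sum.inl x) + lam (Sum.inr ⟨s(x, y), hxy⟩) + lam (Sum.inl y) = k

/-- labels of the first cycle -/
def va (h i : ℕ) : ℕ :=
  if i % 2 = 1 then 4 * h + 1 + i / 2
  else if i / 2 < h then i / 2 + 1 else if i / 2 = h then 3 * h else i / 2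

/-- labels of the second cycle -/
def vb (h i : ℕ) : ℕ :=
  if i % 2 = 1 then (if i / 2 < 2 * h - 1 then 6 * h + 2 + i / 2 else 10 * h + 1)
  else if i / 2 < h then 2 * h + i / 2 else 2 * h + 1 + i / 2

/-- successor in the cyclic order -/
def nx (h i : ℕ) : ℕ := if i + 1 < 4 * h then i + 1 else 0

theorem va_even (h t : ℕ) : va h (2 * t) = if t < h then t + 1 else if t = h then 3 * h else t := by
  unfold va
  rw [if_neg (by omega)]
  have : 2 * t / 2 = t := by omega
  rw [this]

theorem va_odd (h t : ℕ) : va h (2 * t + 1) = 4 * h + 1 + t := by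
  unfold va
  rw [if_pos (by omega)]
  omega

theorem vb_even (h t : ℕ) : vb h (2 * t) = if t < h then 2 * h + t else 2 * h + 1 + t := by
  unfold vb
  rw [if_neg (by omega)]
  have : 2 * t / 2 = t := by omega
  rw [this]

theorem vb_odd (h t : ℕ) : vb h (2 * t + 1) = if t < 2 * h - 1 then 6 * h + 2 + t
    else 10 * h + 1 := by
  unfold vb
  rw [if_pos (by omega)]
  have : (2 * t + 1) / 2 = t := by omega
  rw [this]

theorem nx_even {h t : ℕ} (ht : t < 2 * h) : nx h (2 * t) = 2 * t + 1 := by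
  unfold nx; rw [if_pos (by omega)]

theorem nx_odd {h t : ℕ} (ht : t + 1 < 2 * h) : nx h (2 * t + 1) = 2 * (t + 1) := by
  unfold nx; rw [if_pos (by omega)]; omega

theorem nx_last {h t : ℕ} (ht : 2 * h ≤ t + 1) : nx h (2 * t + 1) = 2 * 0 := by
  unfold nx; rw [if_neg (by omega)]

theorem parity (i : ℕ) : ∃ t, i = 2 * t ∨ i = 2 * t + 1 := ⟨i / 2, by omega⟩

theorem va_inj {h i j : ℕ} (hi : i < 4 * h) (hj : j < 4 * h) (H : va h i = va h j) : i = j := by
  obtain ⟨s, rfl | rfl⟩ := parity i <;> obtain ⟨t, rfl | rfl⟩ := parity j <;>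
    simp only [va_even, va_odd] at H <;> first | omega | (split_ifs at H <;> omega)

theorem vb_inj {h i j : ℕ} (hi : i < 4 * h) (hj : j < 4 * h) (H : vb h i = vb h j) : i = j := by
  obtain ⟨s, rfl | rfl⟩ := parity i <;> obtain ⟨t, rfl | rfl⟩ := parity j <;>
    simp only [vb_even, vb_odd] at H <;> split_ifs at H <;> omega

theorem va_mem {h i : ℕ} (hi : i < 4 * h) :
    1 ≤ va h i ∧ va h i ≤ 6 * h ∧ (va h i < 2 * h ∨ va h i = 3 * h ∨ 4 * h < va h i) := by
  obtain ⟨s, rfl | rfl⟩ := parity i <;> simp only [va_even, va_odd] <;>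
    first | omega | (split_ifs <;> omega)

theorem vb_mem {h i : ℕ} (hi : i < 4 * h) :
    (2 * h ≤ vb h i ∧ vb h i ≤ 4 * h ∧ vb h i ≠ 3 * h) ∨
      (6 * h + 2 ≤ vb h i ∧ vb h i ≤ 8 * h) ∨ vb h i = 10 * h + 1 := by
  obtain ⟨s, rfl | rfl⟩ := parity i <;> simp only [vb_even, vb_odd] <;> split_ifs <;> omega

/-- the sum of an edge of the first cycle -/
def sa (h i : ℕ) : ℕ := va h i + va h (nx h i)

/-- the sum of an edge of the second cycle -/
def sb (h i : ℕ) : ℕ := vb h i + vb h (nx h i)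

theorem sa_even {h t : ℕ} (ht : t < 2 * h) : sa h (2 * t) =
    if t < h then 4 * h + 2 + 2 * t else if t = h then 8 * h + 1 else 4 * h + 1 + 2 * t := by
  unfold sa
  rw [nx_even ht, va_even, va_odd]
  split_ifs <;> omega

theorem sa_odd {h t : ℕ} (ht : t < 2 * h) : sa h (2 * t + 1) =
    if 2 * h ≤ t + 1 then 6 * h + 1 else if t + 1 < h then 4 * h + 3 + 2 * t
    else if t + 1 = h then 8 * h else if t = h then 6 * h + 2 else 4 * h + 2 + 2 * t := by
  unfold sa
  by_cases h1 : 2 * h ≤ t + 1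
  · rw [nx_last h1, va_even, va_odd]
    split_ifs <;> omega
  · rw [nx_odd (by omega), va_even, va_odd]
    split_ifs <;> omega

theorem sb_even {h t : ℕ} (ht : t < 2 * h) : sb h (2 * t) =
    if t < h then 8 * h + 2 + 2 * t else if t < 2 * h - 1 then 8 * h + 3 + 2 * t
    else 14 * h + 1 := by
  unfold sb
  rw [nx_even ht, vb_even, vb_odd]
  split_ifs <;> omega

theorem sb_odd {h t : ℕ} (ht : t < 2 * h) : sb h (2 * t + 1) =
    if 2 * h ≤ t + 1 then 12 * h + 1 else if t + 1 < h then 8 * h + 3 + 2 * t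
    else 8 * h + 4 + 2 * t := by
  unfold sb
  by_cases h1 : 2 * h ≤ t + 1
  · rw [nx_last h1, vb_even, vb_odd]
    split_ifs <;> omega
  · rw [nx_odd (by omega), vb_even, vb_odd]
    split_ifs <;> omega

theorem sa_mem {h i : ℕ} (hi : i < 4 * h) : 4 * h + 2 ≤ sa h i ∧ sa h i ≤ 8 * h + 1 := by
  obtain ⟨s, rfl | rfl⟩ := parity i
  · rw [sa_even (by omega)]; split_ifs <;> omega
  · rw [sa_odd (by omega)]; split_ifs <;> omega

theorem sb_mem {h i : ℕ} (hi : i < 4 * h) : (8 * h + 2 ≤ sb h i ∧ sb h i ≤ 12 * h + 1 ∧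
    sb h i ≠ 10 * h + 1) ∨ sb h i = 14 * h + 1 := by
  obtain ⟨s, rfl | rfl⟩ := parity i
  · rw [sb_even (by omega)]; split_ifs <;> omega
  · rw [sb_odd (by omega)]; split_ifs <;> omega

theorem sa_inj {h i j : ℕ} (hi : i < 4 * h) (hj : j < 4 * h) (H : sa h i = sa h j) : i = j := by
  obtain ⟨s, rfl | rfl⟩ := parity i <;> obtain ⟨t, rfl | rfl⟩ := parity j
  · rw [sa_even (by omega), sa_even (by omega)] at H; split_ifs at H <;> omega
  · rw [sa_even (by omega), sa_odd (by omega)] at H; split_ifs at H <;> omega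
  · rw [sa_odd (by omega), sa_even (by omega)] at H; split_ifs at H <;> omega
  · rw [sa_odd (by omega), sa_odd (by omega)] at H; split_ifs at H <;> omega

theorem sb_inj {h i j : ℕ} (hi : i < 4 * h) (hj : j < 4 * h) (H : sb h i = sb h j) : i = j := by
  obtain ⟨s, rfl | rfl⟩ := parity i <;> obtain ⟨t, rfl | rfl⟩ := parity j
  · rw [sb_even (by omega), sb_even (by omega)] at H; split_ifs at H <;> omega
  · rw [sb_even (by omega), sb_odd (by omega)] at H; split_ifs at H <;> omega
  · rw [sb_odd (by omega), sb_even (by omega)] at H; split_ifs at H <;> omega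
  · rw [sb_odd (by omega), sb_odd (by omega)] at H; split_ifs at H <;> omega

section graph

variable (h : ℕ)

/-- vertex labels of the two cycles -/
def F : Fin (4 * h) ⊕ Fin (4 * h) → ℕ
  | Sum.inl i => va h i
  | Sum.inr i => vb h i

/-- cyclic successor -/
def next : Fin (4 * h) ⊕ Fin (4 * h) → Fin (4 * h) ⊕ Fin (4 * h)
  | Sum.inl i => Sum.inl ⟨nx h i, by have := i.isLt; unfold nx; split_ifs <;> omega⟩
  | Sum.inr i => Sum.inr ⟨nx h i, by have := i.isLt; unfold nx; split_ifs <;> omega⟩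

/-- sums of edges -/
def T (z : Fin (4 * h) ⊕ Fin (4 * h)) : ℕ := F h z + F h (next h z)

theorem F_inj : Function.Injective (F h) := by
  rintro (i | i) (j | j) H
  · exact congrArg _ (Fin.ext (va_inj i.isLt j.isLt H))
  · exfalso
    have h1 := va_mem i.isLt
    have h2 := vb_mem j.isLt
    simp only [F] at H
    omega
  · exfalso
    have h1 := vb_mem i.isLt
    have h2 := va_mem j.isLt
    simp only [F] at H
    omega
  · exact congrArg _ (Fin.ext (vb_inj i.isLt j.isLt H))

theorem T_inj : Function.Injective (T h) := by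
  rintro (i | i) (j | j) H
  · exact congrArg _ (Fin.ext (sa_inj i.isLt j.isLt H))
  · exfalso
    have h1 := sa_mem i.isLt
    have h2 := sb_mem j.isLt
    have H' : sa h i = sb h j := H
    omega
  · exfalso
    have h1 := sb_mem i.isLt
    have h2 := sa_mem j.isLt
    have H' : sb h i = sa h j := H
    omega
  · exact congrArg _ (Fin.ext (sb_inj i.isLt j.isLt H))

theorem F_range (z : Fin (4 * h) ⊕ Fin (4 * h)) :
    (1 ≤ F h z ∧ F h z ≤ 8 * h ∧ F h z ≠ 6 * h + 1) ∨ F h z = 10 * h + 1 := by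
  rcases z with i | i
  · have := va_mem i.isLt
    simp only [F]
    omega
  · have := vb_mem i.isLt
    simp only [F]
    omega

theorem T_range (z : Fin (4 * h) ⊕ Fin (4 * h)) :
    (4 * h + 2 ≤ T h z ∧ T h z ≤ 12 * h + 1 ∧ T h z ≠ 10 * h + 1) ∨ T h z = 14 * h + 1 := by
  rcases z with i | i
  · have := sa_mem i.isLt
    have h1 : T h (Sum.inl i) = sa h i := rfl
    rw [h1]
    have := i.isLt
    omega
  · have := sb_mem i.isLt
    have h1 : T h (Sum.inr i) = sb h i := rfl
    rw [h1]
    have := i.isLt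
    omega

/-- the disjoint union of two cycles of length `4 h` -/
abbrev G : SimpleGraph (Fin (4 * h) ⊕ Fin (4 * h)) := cycleGraph (4 * h) ⊕g cycleGraph (4 * h)

theorem cyc_adj {n : ℕ} (hn : 3 ≤ n) (u v : Fin n) : (cycleGraph n).Adj u v ↔
    (v.val = if u.val + 1 < n then u.val + 1 else 0) ∨
      (u.val = if v.val + 1 < n then v.val + 1 else 0) := by
  rw [cycleGraph_adj']
  have hu := u.isLt
  have hv := v.isLt
  rw [Fin.val_sub, Fin.val_sub]
  have h1 : (n - v.val + u.val) % n = if v.val ≤ u.val then u.val - v.val else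
      n - v.val + u.val := by
    split_ifs with h
    · rw [show n - v.val + u.val = (u.val - v.val) + n by omega, Nat.add_mod_right,
        Nat.mod_eq_of_lt (by omega)]
    · rw [Nat.mod_eq_of_lt (by omega)]
  have h2 : (n - u.val + v.val) % n = if u.val ≤ v.val then v.val - u.val else
      n - u.val + v.val := by
    split_ifs with h
    · rw [show n - u.val + v.val = (v.val - u.val) + n by omega, Nat.add_mod_right,
        Nat.mod_eq_of_lt (by omega)]
    · rw [Nat.mod_eq_of_lt (by omega)]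
  rw [h1, h2]
  split_ifs <;> omega

theorem adj_iff (hh : 1 ≤ h) (x y : Fin (4 * h) ⊕ Fin (4 * h)) :
    (G h).Adj x y ↔ y = next h x ∨ x = next h y := by
  rcases x with i | i <;> rcases y with j | j
  · rw [sum_adj_inl, cyc_adj (by omega)]
    simp only [next, Sum.inl.injEq, Fin.ext_iff, nx]
  · simp [next]
  · simp [next]
  · rw [sum_adj_inr, cyc_adj (by omega)]
    simp only [next, Sum.inr.injEq, Fin.ext_iff, nx]

/-- sum of the end labels of an edge -/
def esum : Sym2 (Fin (4 * h) ⊕ Fin (4 * h)) → ℕ :=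
  Sym2.lift ⟨fun x y => F h x + F h y, fun _ _ => add_comm _ _⟩

theorem esum_mk (x y : Fin (4 * h) ⊕ Fin (4 * h)) : esum h s(x, y) = F h x + F h y := rfl

theorem edge_eq (hh : 1 ≤ h) (e : (G h).edgeSet) : ∃ z, e.1 = s(z, next h z) := by
  obtain ⟨e, he⟩ := e
  induction e using Sym2.ind with
  | _ x y =>
    rcases (adj_iff h hh x y).1 he with h1 | h1
    · exact ⟨x, by show s(x, y) = s(x, next h x); rw [← h1]⟩
    · exact ⟨y, by show s(x, y) = s(y, next h y); rw [← h1, Sym2.eq_swap]⟩

/-- the labeling -/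
def lam : (Fin (4 * h) ⊕ Fin (4 * h)) ⊕ (G h).edgeSet → ℕ
  | Sum.inl x => F h x
  | Sum.inr e => 20 * h + 2 - esum h e.1

theorem lam_inj (hh : 1 ≤ h) : Function.Injective (lam h) := by
  have key : ∀ x (e : (G h).edgeSet), F h x ≠ 20 * h + 2 - esum h e.1 := by
    intro x e
    obtain ⟨z, hz⟩ := edge_eq h hh e
    have h1 : esum h e.1 = T h z := by rw [hz]; rfl
    rw [h1]
    have h2 := F_range h x
    have h3 := T_range h z
    omega
  rintro (x | e) (y | e') H
  · exact congrArg _ (F_inj h H)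
  · exact absurd H (key x e')
  · exact absurd H.symm (key y e)
  · obtain ⟨z, hz⟩ := edge_eq h hh e
    obtain ⟨z', hz'⟩ := edge_eq h hh e'
    have H' : 20 * h + 2 - esum h e.1 = 20 * h + 2 - esum h e'.1 := H
    have h1 : esum h e.1 = T h z := by rw [hz]; rfl
    have h2 : esum h e'.1 = T h z' := by rw [hz']; rfl
    rw [h1, h2] at H'
    have h3 := T_range h z
    have h4 := T_range h z'
    have h5 : z = z' := T_inj h (by omega)
    apply congrArg
    apply Subtype.ext
    rw [hz, hz', h5]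

theorem lam_mem (hh : 1 ≤ h) (x) : 1 ≤ lam h x ∧ lam h x ≤ 16 * h := by
  rcases x with x | e
  · have := F_range h x
    simp only [lam]
    omega
  · obtain ⟨z, hz⟩ := edge_eq h hh e
    have h1 : esum h e.1 = T h z := by rw [hz]; rfl
    simp only [lam]
    rw [h1]
    have h3 := T_range h z
    omega

theorem emt (hh : 1 ≤ h) : EdgeMagicTotal (G h) := by
  have hV : Nat.card (Fin (4 * h) ⊕ Fin (4 * h)) = 8 * h := by
    rw [Nat.card_eq_fintype_card, Fintype.card_sum, Fintype.card_fin]; omega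
  have hE : 8 * h ≤ Nat.card (G h).edgeSet := by
    let f : Fin (4 * h) ⊕ Fin (4 * h) → (G h).edgeSet := fun z =>
      ⟨s(z, next h z), (adj_iff h hh _ _).2 (Or.inl rfl)⟩
    have hf : Function.Injective f := by
      intro z z' H
      apply T_inj h
      have h1 := congrArg (fun e : (G h).edgeSet => esum h e.1) H
      exact h1
    have := Nat.card_le_card_of_injective f hf
    rwa [hV] at this
  have hcard : Nat.card ((Fin (4 * h) ⊕ Fin (4 * h)) ⊕ (G h).edgeSet) ≤ 16 * h := by
    let f : (Fin (4 * h) ⊕ Fin (4 * h)) ⊕ (G h).edgeSet → Finset.Icc 1 (16 * h) := fun x =>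
      ⟨lam h x, Finset.mem_Icc.2 (lam_mem h hh x)⟩
    have hf : Function.Injective f := by
      intro x y H
      exact lam_inj h hh (congrArg Subtype.val H)
    have := Nat.card_le_card_of_injective f hf
    rwa [Nat.card_eq_fintype_card (α := Finset.Icc 1 (16 * h)), Fintype.card_coe,
      Nat.card_Icc, Nat.add_sub_cancel] at this
  have hsum : Nat.card ((Fin (4 * h) ⊕ Fin (4 * h)) ⊕ (G h).edgeSet) =
      Nat.card (Fin (4 * h) ⊕ Fin (4 * h)) + Nat.card (G h).edgeSet := Nat.card_sum
  have hE' : Nat.card (G h).edgeSet = 8 * h := by omega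
  refine ⟨lam h, lam_inj h hh, ?_, 20 * h + 2, ?_⟩
  · rw [hV, hE']
    have h1 : (Set.range (lam h)) ⊆ (Finset.Icc 1 (8 * h + 8 * h) : Finset ℕ) := by
      rintro _ ⟨x, rfl⟩
      have := lam_mem h hh x
      rw [Finset.coe_Icc, Set.mem_Icc]
      omega
    have h2 : (Set.range (lam h)).ncard = 16 * h := by
      rw [← Set.image_univ, Set.ncard_image_of_injective _ (lam_inj h hh), Set.ncard_univ, hsum]
      omega
    have h3 := Set.eq_of_subset_of_ncard_le h1 (by
      rw [h2, Set.ncard_coe_finset, Nat.card_Icc]; omega) (Finset.finite_toSet _)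
    rw [h3, Finset.coe_Icc]
  · intro x y hxy
    show F h x + (20 * h + 2 - esum h s(x, y)) + F h y = 20 * h + 2
    obtain ⟨z, hz⟩ := edge_eq h hh ⟨s(x, y), hxy⟩
    have h1 : esum h s(x, y) = T h z := by
      have : s(x, y) = s(z, next h z) := hz
      rw [this]; rfl
    have h3 := T_range h z
    have h4 := esum_mk h x y
    omega

end graph

/-- For every `n ≥ 4` with `n ≡ 0 (mod 4)` the disjoint union `C_n ∪ C_n` is edge-magic total. -/
theorem result : ∀ n : ℕ, 4 ≤ n → n % 4 = 0 →
    EdgeMagicTotal (cycleGraph n ⊕g cycleGraph n) := by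
  intro n hn h4
  obtain ⟨h, rfl⟩ : ∃ h, n = 4 * h := ⟨n / 4, by omega⟩
  exact emt h (by omega)

end Pool.Agent.Results.MP_87e2cd_co.TwoEqualCycles
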